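import Pool.Agent.H454R3.Defs
set_option autoImplicit false

/-!
# Rules that see objective values

Definitions: what a rule has seen, value-driven rules, runs.
-/

namespace Pool.Agent.TH821.VD

open Finset

/-- what can be seen at a vertex: the vertex, its objective value, and the objective value of its
neighbour in each of the `n` directions -/
abbrev View (n : ℕ) := (Fin n → Bool) × ℕ × (Fin n → ℕ)

/-- what can be seen at the vertex `x` -/
def view {n : ℕ} (f : (Fin n → Bool) → ℕ) (x : Fin n → Bool) : View n :=
  (x, f x, fun i => f (Pool.Agent.H454R3.flip x i))

/-- everything seen at the vertices `w 0, …, w k`, in this order -/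
def seen {n : ℕ} (f : (Fin n → Bool) → ℕ) (w : ℕ → (Fin n → Bool)) (k : ℕ) : List (View n) :=
  (List.range (k + 1)).map fun j => view f (w j)

/-- `r` is a deterministic rule which sees the current vertex and all earlier ones, with the
objective values at these vertices and at all their neighbours, and names the direction of the
next step. The rule is *value-driven* if its choice can be swayed by the objective values at the
improving neighbours: whatever it has seen before, whatever the vertex `x`, its value `a` and the
nonempty set `S` of improving directions are, and whatever the values `g i < a` in the other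
directions are, for each `y ∈ S` there are different values, as large as we want, at the improving
neighbours for which the rule chooses `y`. -/
def ValueDriven {n : ℕ} (r : List (View n) → Fin n) : Prop :=
  ∀ (h : List (View n)) (x : Fin n → Bool) (a : ℕ) (g : Fin n → ℕ) (S : Finset (Fin n))
    (y : Fin n) (M : ℕ), y ∈ S → a ≤ M → (∀ i, i ∉ S → g i < a) →
    ∃ v : Fin n → ℕ, Set.InjOn v S ∧ (∀ i ∈ S, M < v i) ∧ (∀ i, i ∉ S → v i = g i) ∧
      r (h ++ [(x, a, v)]) = y

/-- a view without the names of vertices and directions: the objective value of the vertex and the
set of the objective values of its neighbours -/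
def blind {n : ℕ} (q : View n) : ℕ × Finset ℕ := (q.2.1, univ.image q.2.2)

/-- `r` is *label-free*: when there is an improving direction it takes one, and the objective value
of the vertex it moves to only depends on the objective values of the current vertex and of all
earlier ones and on the sets of the objective values of their neighbours -/
def LabelFree {n : ℕ} (r : List (View n) → Fin n) : Prop :=
  ∃ c : List (ℕ × Finset ℕ) → ℕ, ∀ (h : List (View n)) (x : Fin n → Bool) (a : ℕ)
    (v : Fin n → ℕ), (∃ i, a < v i) → a < v (r (h ++ [(x, a, v)])) ∧
      v (r (h ++ [(x, a, v)])) = c ((h ++ [(x, a, v)]).map blind)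

/-- `r` always takes an improving direction for which the improvement times a positive weight is
maximal; the weights may depend on the direction, the current vertex and everything seen before -/
def WeightedImprovement {n : ℕ} (r : List (View n) → Fin n) : Prop :=
  ∃ ω : List (View n) → (Fin n → Bool) → Fin n → ℝ, (∀ h x i, 0 < ω h x i) ∧
    ∀ (h : List (View n)) (x : Fin n → Bool) (a : ℕ) (v : Fin n → ℕ), (∃ i, a < v i) →
      a < v (r (h ++ [(x, a, v)])) ∧ ∀ i, ω h x i * ((v i : ℝ) - a) ≤
        ω h x (r (h ++ [(x, a, v)])) * ((v (r (h ++ [(x, a, v)])) : ℝ) - a)

end Pool.Agent.TH821.VD
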