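import Pool.Agent.TH821.VD.Lay
import Pool.Agent.TH821.VD.Defs
set_option autoImplicit false

/-!
# The adversary
-/

namespace Pool.Agent.TH821.VD

open Finset Pool.Agent.H454R3

variable {n : ℕ}

lemma nb_inj (x : Fin n → Bool) : Function.Injective (H454R3.flip x) := by
  intro i j h
  by_contra hij
  have h1 := congrFun h i
  rw [flip_self, flip_ne x hij] at h1
  cases hx : x i <;> rw [hx] at h1 <;> exact Bool.noConfusion h1

/-- value-driven rules with a restriction `P M` on the values -/
def Driven (P : ℕ → ℕ → Prop) (r : List (View n) → Fin n) : Prop :=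
  ∀ (h : List (View n)) (x : Fin n → Bool) (a : ℕ) (g : Fin n → ℕ) (S : Finset (Fin n))
    (y : Fin n) (M : ℕ), y ∈ S → a ≤ M → (∀ i, i ∉ S → g i < a) →
    ∃ v : Fin n → ℕ, Set.InjOn v S ∧ (∀ i ∈ S, M < v i ∧ P M (v i)) ∧
      (∀ i, i ∉ S → v i = g i) ∧ r (h ++ [(x, a, v)]) = y

/-- one more layer -/
lemma step {τ : (Fin n → Bool) → ℕ} {T : ℕ} {w : ℕ → Fin n → Bool} (h : Lay n τ T w)
    {d : ℕ → Fin n} (hd : ∀ k < T, w (k + 1) = H454R3.flip (w k) (d k))
    {P : ℕ → ℕ → Prop} {r : List (View n) → Fin n} (hr : Driven P r) (K : ℕ) (hK : K < T)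
    (f : (Fin n → Bool) → ℕ) (hinj : Set.InjOn f {x | τ x ≤ K})
    (hmono : ∀ x y, τ y ≤ K → τ x < τ y → f x < f y) (hrun : ∀ k < K, r (seen f w k) = d k) :
    ∃ f' : (Fin n → Bool) → ℕ, Set.InjOn f' {x | τ x ≤ K + 1} ∧
      (∀ x y, τ y ≤ K + 1 → τ x < τ y → f' x < f' y) ∧ (∀ k < K + 1, r (seen f' w k) = d k) ∧
      ((∀ M v, P M v → v ≤ M + n) → ∀ z, f' z ≤ univ.sup f + n + 1 + 2 ^ n) := by
  classical
  have hwK := h.lay K hK.le
  set S : Finset (Fin n) := univ.filter fun i => τ (H454R3.flip (w K) i) = K + 1 with hS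
  have hSi : ∀ i, i ∉ S → τ (H454R3.flip (w K) i) < K := by
    intro i hi
    have h1 := h.imp K hK.le i
    have h2 := h.adj (w K) i
    have h3 : τ (H454R3.flip (w K) i) ≠ K + 1 := fun h4 => hi (by rw [hS]; simpa using h4)
    omega
  have hy : d K ∈ S := by
    rw [hS, mem_filter]
    refine ⟨mem_univ _, ?_⟩
    rw [← hd K hK]
    exact h.lay (K + 1) (by omega)
  set M := univ.sup f with hM
  have hfM : ∀ x, f x ≤ M := fun x => le_sup (mem_univ x)
  obtain ⟨v, hv1, hv2', hv3, hv4⟩ := hr ((List.range K).map fun j => view f (w j)) (w K) (f (w K))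
    (fun i => f (H454R3.flip (w K) i)) S (d K) M hy (hfM _) (fun i hi => hmono _ _ hwK.le
      (by rw [hwK]; exact hSi i hi))
  have hv2 : ∀ i ∈ S, M < v i := fun i hi => (hv2' i hi).1
  set M' := max M (univ.sup v) with hM'
  have hvM : ∀ i, v i ≤ M' := fun i => (le_sup (mem_univ i)).trans (le_max_right _ _)
  let e := Fintype.equivFin (Fin n → Bool)
  let f' : (Fin n → Bool) → ℕ := fun z => if τ z ≤ K then f z else
    if hz : ∃ i, i ∈ S ∧ z = H454R3.flip (w K) i then v hz.choose else M' + 1 + (e z : ℕ)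
  have f1 : ∀ z, τ z ≤ K → f' z = f z := fun z hz => if_pos hz
  have f2 : ∀ i ∈ S, f' (H454R3.flip (w K) i) = v i := by
    intro i hi
    have hex : ∃ j, j ∈ S ∧ H454R3.flip (w K) i = H454R3.flip (w K) j := ⟨i, hi, rfl⟩
    have hτ : ¬ τ (H454R3.flip (w K) i) ≤ K := by
      rw [hS, mem_filter] at hi
      omega
    show (if τ (H454R3.flip (w K) i) ≤ K then _ else _) = _
    rw [if_neg hτ, dif_pos hex]
    have := nb_inj _ hex.choose_spec.2
    rw [← this]
  have f3 : ∀ z, ¬ τ z ≤ K → (∃ i ∈ S, z = H454R3.flip (w K) i) ∨ f' z = M' + 1 + (e z : ℕ) := by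
    intro z hz
    by_cases hex : ∃ i, i ∈ S ∧ z = H454R3.flip (w K) i
    · exact Or.inl hex
    · right
      show (if τ z ≤ K then _ else _) = _
      rw [if_neg hz, dif_neg hex]
  have f4 : ∀ z, ¬ τ z ≤ K → M < f' z := by
    intro z hz
    rcases f3 z hz with ⟨i, hi, rfl⟩ | h1
    · rw [f2 i hi]; exact hv2 i hi
    · rw [h1]
      have := le_max_left M (univ.sup v)
      omega
  have hview : ∀ j < K, view f' (w j) = view f (w j) := by
    intro j hj
    have h1 := h.lay j (by omega)
    unfold view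
    rw [f1 _ (by omega)]
    congr 2
    funext i
    exact f1 _ ((h.imp j (by omega) i).trans (by omega))
  refine ⟨f', ?_, ?_, ?_, ?_⟩
  · intro x hx y hy' hxy
    by_cases hx1 : τ x ≤ K <;> by_cases hy1 : τ y ≤ K
    · rw [f1 x hx1, f1 y hy1] at hxy
      exact hinj hx1 hy1 hxy
    · exfalso
      rw [f1 x hx1] at hxy
      have := f4 y hy1
      have := hfM x
      omega
    · exfalso
      rw [f1 y hy1] at hxy
      have := f4 x hx1
      have := hfM y
      omega
    · rcases f3 x hx1 with ⟨i, hi, rfl⟩ | hx2 <;> rcases f3 y hy1 with ⟨j, hj, rfl⟩ | hy2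
      · rw [f2 i hi, f2 j hj] at hxy
        rw [hv1 hi hj hxy]
      · exfalso
        rw [f2 i hi, hy2] at hxy
        have := hvM i
        omega
      · exfalso
        rw [f2 j hj, hx2] at hxy
        have := hvM j
        omega
      · rw [hx2, hy2] at hxy
        apply e.injective
        apply Fin.ext
        omega
  · intro x y hy1 hxy
    by_cases hyK : τ y ≤ K
    · rw [f1 y hyK, f1 x (by omega)]
      exact hmono x y hyK hxy
    · rw [f1 x (by omega)]
      have := f4 y hyK
      have := hfM x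
      omega
  · intro k hk
    have hmap : ∀ m ≤ K, (List.range m).map (fun j => view f' (w j)) =
        (List.range m).map fun j => view f (w j) := by
      intro m hm
      apply List.map_congr_left
      intro j hj
      exact hview j (by rw [List.mem_range] at hj; omega)
    rcases Nat.lt_or_ge k K with h1 | h1
    · have : seen f' w k = seen f w k := hmap (k + 1) (by omega)
      rw [this]
      exact hrun k h1
    · have hkK : k = K := by omega
      subst hkK
      have : seen f' w k = ((List.range k).map fun j => view f (w j)) ++ [(w k, f (w k), v)] := by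
        unfold seen
        rw [List.range_succ, List.map_append, hmap k le_rfl]
        congr 1
        show [view f' (w k)] = _
        unfold view
        rw [f1 _ hwK.le]
        congr 3
        funext i
        by_cases hi : i ∈ S
        · exact f2 i hi
        · rw [hv3 i hi]
          exact f1 _ (hSi i hi).le
      rw [this, hv4]
  · intro hP z
    have hvn : ∀ i, v i ≤ M + n := by
      intro i
      by_cases hi : i ∈ S
      · exact hP _ _ (hv2' i hi).2
      · rw [hv3 i hi]
        exact (hfM _).trans (Nat.le_add_right _ _)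
    have hq : 0 < 2 ^ n := by positivity
    have hM'n : M' ≤ M + n := max_le (Nat.le_add_right _ _) (Finset.sup_le fun i _ => hvn i)
    by_cases hz : τ z ≤ K
    · rw [f1 z hz]
      have := hfM z
      omega
    · rcases f3 z hz with ⟨i, hi, rfl⟩ | h1
      · rw [f2 i hi]
        have := hvn i
        omega
      · rw [h1]
        have h2 : (e z : ℕ) < 2 ^ n := by
          have := (e z).2
          simpa [Fintype.card_fun, Fintype.card_fin] using this
        omega

/-- **The adversary.** -/
lemma follow {τ : (Fin n → Bool) → ℕ} {T : ℕ} {w : ℕ → Fin n → Bool} (h : Lay n τ T w)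
    {d : ℕ → Fin n} (hd : ∀ k < T, w (k + 1) = H454R3.flip (w k) (d k))
    {P : ℕ → ℕ → Prop} {r : List (View n) → Fin n} (hr : Driven P r) :
    ∃ f : (Fin n → Bool) → ℕ, Function.Injective f ∧ (∀ x y, τ x < τ y → f x < f y) ∧
      (∀ k < T, r (seen f w k) = d k) ∧
      ((∀ M v, P M v → v ≤ M + n) → ∀ z, f z ≤ 2 ^ n + T * (n + 1 + 2 ^ n)) := by
  have key : ∀ K ≤ T, ∃ f : (Fin n → Bool) → ℕ, Set.InjOn f {x | τ x ≤ K} ∧
      (∀ x y, τ y ≤ K → τ x < τ y → f x < f y) ∧ (∀ k < K, r (seen f w k) = d k) ∧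
      ((∀ M v, P M v → v ≤ M + n) → ∀ z, f z ≤ 2 ^ n + K * (n + 1 + 2 ^ n)) := by
    intro K
    induction K with
    | zero =>
      intro _
      let e := Fintype.equivFin (Fin n → Bool)
      refine ⟨fun x => (e x : ℕ), ?_, ?_, ?_, ?_⟩
      · intro x _ y _ hxy
        exact e.injective (Fin.ext hxy)
      · intro x y h1 h2
        omega
      · intro k hk
        omega
      · intro _ z
        have := (e z).2
        have h2 : (e z : ℕ) < 2 ^ n := by
          simpa [Fintype.card_fun, Fintype.card_fin] using this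
        show (e z : ℕ) ≤ _
        omega
    | succ K ih =>
      intro hK
      obtain ⟨f, h1, h2, h3, h4⟩ := ih (by omega)
      obtain ⟨f', g1, g2, g3, g4⟩ := step h hd hr K (by omega) f h1 h2 h3
      refine ⟨f', g1, g2, g3, fun hP z => ?_⟩
      have h5 := g4 hP z
      have h6 : univ.sup f ≤ 2 ^ n + K * (n + 1 + 2 ^ n) := Finset.sup_le fun z _ => h4 hP z
      have h7 : (K + 1) * (n + 1 + 2 ^ n) = K * (n + 1 + 2 ^ n) + (n + 1 + 2 ^ n) := by ring
      rw [h7]
      omega
  obtain ⟨f, h1, h2, h3, h4⟩ := key T le_rfl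
  refine ⟨f, ?_, ?_, h3, h4⟩
  · intro x y hxy
    exact h1 (h.le x) (h.le y) hxy
  · intro x y hxy
    exact h2 x y (h.le y) hxy

/-- the objective function induces the orientation -/
lemma improving_eq {τ : (Fin n → Bool) → ℕ} {T : ℕ} {w : ℕ → Fin n → Bool} (h : Lay n τ T w)
    {f : (Fin n → Bool) → ℕ} (hf : ∀ x y, τ x < τ y → f x < f y) (x : Fin n → Bool) :
    improving f x = univ.filter fun i => τ x < τ (H454R3.flip x i) := by
  ext i
  rw [mem_improving, mem_filter]
  constructor
  · intro h1
    refine ⟨mem_univ i, ?_⟩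
    by_contra h2
    have h3 := h.adj x i
    have := hf (H454R3.flip x i) x (by omega)
    omega
  · intro h1
    exact hf _ _ h1.2

lemma combed_of {τ : (Fin n → Bool) → ℕ} {T : ℕ} {w : ℕ → Fin n → Bool} (h : Lay n τ T w)
    {f : (Fin n → Bool) → ℕ} (hf : ∀ x y, τ x < τ y → f x < f y) : Combed f := by
  intro U x hU
  obtain ⟨i, hi, b, hb⟩ := h.comb U x hU
  refine ⟨i, hi, b, fun y hy => ?_⟩
  rw [improving_eq h hf, mem_filter, ← hb y hy]
  simp

/-- label-free rules are value-driven -/
lemma labelFree_driven {r : List (View n) → Fin n} (hr : LabelFree r) :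
    Driven (fun M v => v ≤ M + n) r := by
  classical
  obtain ⟨c, hc⟩ := hr
  intro h x a g S y M hy haM hg
  let v' : Fin n → ℕ := fun i => if i ∈ S then M + 1 + (i : ℕ) else g i
  have hv'S : ∀ i ∈ S, v' i = M + 1 + (i : ℕ) := fun i hi => if_pos hi
  have hv'N : ∀ i, i ∉ S → v' i = g i := fun i hi => if_neg hi
  obtain ⟨hb1, hb2⟩ := hc h x a v' ⟨y, by rw [hv'S y hy]; omega⟩
  set j := r (h ++ [(x, a, v')]) with hj
  have hjS : j ∈ S := by
    by_contra hjS
    have h1 := hg j hjS
    rw [hv'N j hjS] at hb1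
    omega
  have hsw : ∀ i ∈ S, Equiv.swap y j i ∈ S := by
    intro i hi
    rw [Equiv.swap_apply_def]
    split_ifs
    · exact hjS
    · exact hy
    · exact hi
  have hswN : ∀ i, i ∉ S → Equiv.swap y j i = i := by
    intro i hi
    apply Equiv.swap_apply_of_ne_of_ne
    · rintro rfl; exact hi hy
    · rintro rfl; exact hi hjS
  refine ⟨fun i => v' (Equiv.swap y j i), ?_, ?_, ?_, ?_⟩
  · intro i hi k hk hik
    have hi' := hsw i hi
    have hk' := hsw k hk
    have hik' : v' (Equiv.swap y j i) = v' (Equiv.swap y j k) := hik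
    rw [hv'S _ hi', hv'S _ hk'] at hik'
    exact (Equiv.swap y j).injective (Fin.ext (by omega))
  · intro i hi
    show M < v' (Equiv.swap y j i) ∧ v' (Equiv.swap y j i) ≤ M + n
    rw [hv'S _ (hsw i hi)]
    have := (Equiv.swap y j i).2
    omega
  · intro i hi
    show v' (Equiv.swap y j i) = _
    rw [hswN i hi, hv'N i hi]
  · obtain ⟨_, h1⟩ := hc h x a (fun i => v' (Equiv.swap y j i))
      ⟨y, by
        show a < v' (Equiv.swap y j y)
        rw [hv'S _ (hsw y hy)]; omega⟩
    have h2 : (h ++ [(x, a, fun i => v' (Equiv.swap y j i))]).map blind =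
        (h ++ [(x, a, v')]).map blind := by
      rw [List.map_append, List.map_append]
      congr 1
      show [(a, univ.image fun i => v' (Equiv.swap y j i))] = [(a, univ.image v')]
      congr 2
      ext b
      simp only [mem_image, mem_univ, true_and]
      constructor
      · rintro ⟨i, hi⟩; exact ⟨_, hi⟩
      · rintro ⟨i, hi⟩
        exact ⟨Equiv.swap y j i, by rw [Equiv.swap_apply_self]; exact hi⟩
    rw [h2, ← hb2] at h1
    have h3 : v' (Equiv.swap y j (r (h ++ [(x, a, fun i => v' (Equiv.swap y j i))]))) = v' j := h1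
    have h4 : Equiv.swap y j (r (h ++ [(x, a, fun i => v' (Equiv.swap y j i))])) ∈ S := by
      by_contra h5
      have h6 := hg _ h5
      rw [hv'N _ h5, hv'S j hjS] at h3
      omega
    rw [hv'S _ h4, hv'S j hjS] at h3
    have h5 : Equiv.swap y j (r (h ++ [(x, a, fun i => v' (Equiv.swap y j i))])) = j :=
      Fin.ext (by omega)
    have h6 := congrArg (Equiv.swap y j) h5
    rwa [Equiv.swap_apply_self, Equiv.swap_apply_right] at h6

/-- rules which maximise the improvement times a weight are value-driven -/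
lemma weighted_driven {r : List (View n) → Fin n} (hr : WeightedImprovement r) :
    ValueDriven r := by
  classical
  obtain ⟨ω, hω, hr⟩ := hr
  intro h x a g S y M hy haM hg
  set B : ℕ := ⌈(∑ j, ω h x j * (M + 1 + n)) / ω h x y⌉₊ with hB
  let v : Fin n → ℕ := fun i => if i ∈ S then (if i = y then M + 1 + n + B else M + 1 + (i : ℕ))
    else g i
  have hvy : v y = M + 1 + n + B := by
    show (if y ∈ S then (if y = y then M + 1 + n + B else M + 1 + (y : ℕ)) else g y) = _
    rw [if_pos hy, if_pos rfl]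
  have hvS : ∀ i ∈ S, i ≠ y → v i = M + 1 + (i : ℕ) := by
    intro i hi hiy
    show (if i ∈ S then (if i = y then M + 1 + n + B else M + 1 + (i : ℕ)) else g i) = _
    rw [if_pos hi, if_neg hiy]
  have hvN : ∀ i, i ∉ S → v i = g i := fun i hi => if_neg hi
  refine ⟨v, ?_, ?_, hvN, ?_⟩
  · intro i hi k hk hik
    by_cases h1 : i = y <;> by_cases h2 : k = y
    · rw [h1, h2]
    · exfalso
      rw [h1, hvy, hvS k hk h2] at hik
      have := k.2
      omega
    · exfalso
      rw [h2, hvy, hvS i hi h1] at hik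
      have := i.2
      omega
    · rw [hvS i hi h1, hvS k hk h2] at hik
      exact Fin.ext (by omega)
  · intro i hi
    by_cases h1 : i = y
    · rw [h1, hvy]; omega
    · rw [hvS i hi h1]; omega
  · obtain ⟨h1, h2⟩ := hr h x a v ⟨y, by rw [hvy]; omega⟩
    set i := r (h ++ [(x, a, v)]) with hi
    by_contra hne
    have hiS : i ∈ S := by
      by_contra h3
      have := hg i h3
      rw [hvN i h3] at h1
      omega
    have h3 := h2 y
    rw [hvy, hvS i hiS hne] at h3
    have h4 : (∑ j, ω h x j * ((M : ℝ) + 1 + n)) ≤ ω h x y * B := by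
      have := Nat.le_ceil ((∑ j, ω h x j * ((M : ℝ) + 1 + n)) / ω h x y)
      rw [div_le_iff₀ (hω h x y)] at this
      rw [mul_comm]
      exact this
    have h5 : ω h x i * ((M : ℝ) + 1 + n) ≤ ∑ j, ω h x j * ((M : ℝ) + 1 + n) :=
      single_le_sum (f := fun j => ω h x j * ((M : ℝ) + 1 + n))
        (fun j _ => mul_nonneg (hω h x j).le (by positivity)) (mem_univ i)
    have h6 : ω h x i * (((M + 1 + (i : ℕ) : ℕ) : ℝ) - a) ≤ ω h x i * ((M : ℝ) + 1 + n) := by
      apply mul_le_mul_of_nonneg_left _ (hω h x i).le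
      push_cast
      have : ((i : ℕ) : ℝ) ≤ n := by exact_mod_cast i.2.le
      have : (0 : ℝ) ≤ a := Nat.cast_nonneg a
      linarith
    have h7 : ω h x y * (B : ℝ) < ω h x y * (((M + 1 + n + B : ℕ) : ℝ) - a) := by
      apply mul_lt_mul_of_pos_left _ (hω h x y)
      push_cast
      have : (a : ℝ) ≤ M := by exact_mod_cast haM
      have : (0 : ℝ) ≤ n := Nat.cast_nonneg n
      linarith
    linarith

end Pool.Agent.TH821.VD
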