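import Pool.Agent.H454R3.Tri
set_option autoImplicit false

/-!
# Layered cubes

A combed orientation of the `n`-cube, given by layers, with a long path which gains exactly one
layer in each step, although no improving neighbour of a vertex of the path is more than one layer
above it.
-/

namespace Pool.Agent.TH821.VD

open Finset Pool.Agent.H454R3

/-- a layered cube with a path that climbs one layer in each step -/
structure Lay (n : ℕ) (τ : (Fin n → Bool) → ℕ) (T : ℕ) (w : ℕ → Fin n → Bool) : Prop where
  adj : ∀ x i, τ (H454R3.flip x i) ≠ τ x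
  comb : ∀ (U : Finset (Fin n)) (x : Fin n → Bool), U.Nonempty → ∃ i ∈ U, ∃ b : Bool,
    ∀ y : Fin n → Bool, (∀ j, j ∉ U → y j = x j) → (τ y < τ (H454R3.flip y i) ↔ y i = b)
  le : ∀ x, τ x ≤ T
  path : ∀ k < T, ∃ i, w (k + 1) = H454R3.flip (w k) i
  lay : ∀ k ≤ T, τ (w k) = k
  imp : ∀ k ≤ T, ∀ i, τ (H454R3.flip (w k) i) ≤ k + 1

variable {n : ℕ}

/-- translation of the cube -/
def tr (e x : Fin n → Bool) : Fin n → Bool := fun i => xor (x i) (e i)

lemma tr_tr (e x : Fin n → Bool) : tr e (tr e x) = x := by
  funext i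
  simp [tr]

lemma flip_tr (e x : Fin n → Bool) (i : Fin n) : H454R3.flip (tr e x) i = tr e (H454R3.flip x i) := by
  funext j
  by_cases h : j = i
  · subst h
    rw [flip_self]
    simp only [tr, flip_self]
    cases x j <;> cases e j <;> rfl
  · rw [flip_ne _ h]
    simp only [tr, flip_ne _ h]

lemma tr_comm (e x : Fin n → Bool) : tr e x = tr x e := by
  funext i
  simp only [tr]
  exact Bool.xor_comm _ _

/-- the layers can be translated -/
lemma Lay.trans {τ : (Fin n → Bool) → ℕ} {T : ℕ} {w : ℕ → Fin n → Bool} (h : Lay n τ T w)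
    (e : Fin n → Bool) : Lay n (fun x => τ (tr e x)) T (fun k => tr e (w k)) where
  adj x i := by
    show τ (tr e (H454R3.flip x i)) ≠ τ (tr e x)
    rw [← flip_tr]
    exact h.adj _ _
  comb U x hU := by
    obtain ⟨i, hi, b, hb⟩ := h.comb U (tr e x) hU
    refine ⟨i, hi, xor b (e i), fun y hy => ?_⟩
    show τ (tr e y) < τ (tr e (H454R3.flip y i)) ↔ _
    rw [← flip_tr, hb (tr e y) (fun j hj => by simp only [tr]; rw [hy j hj])]
    simp only [tr]
    cases y i <;> cases e i <;> cases b <;> simp
  le x := h.le _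
  path k hk := by
    obtain ⟨i, hi⟩ := h.path k hk
    exact ⟨i, by show tr e (w (k + 1)) = _; rw [hi, flip_tr]⟩
  lay k hk := by
    show τ (tr e (tr e (w k))) = k
    rw [tr_tr]
    exact h.lay k hk
  imp k hk i := by
    show τ (tr e (H454R3.flip (tr e (w k)) i)) ≤ k + 1
    rw [flip_tr, tr_tr]
    exact h.imp k hk i

/-- the coordinates after the first two -/
def tl (x : Fin (n + 2) → Bool) : Fin n → Bool := fun i => x i.succ.succ

/-- put two coordinates in front -/
def ext (c a : Bool) (x : Fin n → Bool) : Fin (n + 2) → Bool :=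
  Fin.cons c (Fin.cons a x : Fin (n + 1) → Bool)

@[simp] lemma ext_zero (c a : Bool) (x : Fin n → Bool) : ext c a x 0 = c := rfl

@[simp] lemma ext_one (c a : Bool) (x : Fin n → Bool) : ext c a x 1 = a := rfl

@[simp] lemma ext_ss (c a : Bool) (x : Fin n → Bool) (i : Fin n) :
    ext c a x i.succ.succ = x i := rfl

@[simp] lemma tl_ext (c a : Bool) (x : Fin n → Bool) : tl (ext c a x) = x := rfl

lemma ext_tl (x : Fin (n + 2) → Bool) : ext (x 0) (x 1) (tl x) = x := by
  funext i
  refine Fin.cases rfl (fun i => ?_) i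
  refine Fin.cases rfl (fun i => rfl) i

lemma dirs (i : Fin (n + 2)) : i = 0 ∨ i = 1 ∨ ∃ j : Fin n, i = j.succ.succ := by
  refine Fin.cases (Or.inl rfl) (fun i => ?_) i
  exact Fin.cases (Or.inr (Or.inl rfl)) (fun i => Or.inr (Or.inr ⟨i, rfl⟩)) i

lemma flip_ext_zero (c a : Bool) (x : Fin n → Bool) : H454R3.flip (ext c a x) 0 = ext (!c) a x := by
  funext i
  rcases dirs i with rfl | rfl | ⟨i, rfl⟩
  · rw [flip_self]; rfl
  · rw [flip_ne _ (by intro h; simpa using congrArg Fin.val h)]; rfl
  · rw [flip_ne _ (Fin.succ_ne_zero _)]; rfl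

lemma flip_ext_one (c a : Bool) (x : Fin n → Bool) : H454R3.flip (ext c a x) 1 = ext c (!a) x := by
  funext i
  rcases dirs i with rfl | rfl | ⟨i, rfl⟩
  · rw [flip_ne _ (by intro h; simpa using congrArg Fin.val h)]; rfl
  · rw [flip_self]; rfl
  · have : (i.succ.succ : Fin (n + 2)) ≠ 1 := by
      intro h
      have := congrArg Fin.val h
      simp at this
    rw [flip_ne _ this]; rfl

lemma flip_ext_ss (c a : Bool) (x : Fin n → Bool) (j : Fin n) :
    H454R3.flip (ext c a x) j.succ.succ = ext c a (H454R3.flip x j) := by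
  funext i
  rcases dirs i with rfl | rfl | ⟨i, rfl⟩
  · rw [flip_ne _ (Fin.succ_ne_zero _).symm]; rfl
  · have : (1 : Fin (n + 2)) ≠ j.succ.succ := by
      intro h
      have := congrArg Fin.val h
      simp at this
    rw [flip_ne _ this]; rfl
  · by_cases h : i = j
    · subst h
      rw [flip_self]
      simp [flip_self]
    · have : (i.succ.succ : Fin (n + 2)) ≠ j.succ.succ := fun h1 =>
        h (Fin.succ_injective _ (Fin.succ_injective _ h1))
      rw [flip_ne _ this]
      simp [flip_ne _ h]

/-- the layers of the next cube -/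
def up (τ : (Fin n → Bool) → ℕ) (T : ℕ) (e : Fin n → Bool) (x : Fin (n + 2) → Bool) : ℕ :=
  if x 0 = false ∧ x 1 = false then τ (tl x)
  else if x 0 = true ∧ x 1 = true then T + 2 + τ (tr e (tl x)) else τ (tl x) + 1

lemma up_ff (τ : (Fin n → Bool) → ℕ) (T : ℕ) (e x : Fin n → Bool) :
    up τ T e (ext false false x) = τ x := by simp [up]

lemma up_tt (τ : (Fin n → Bool) → ℕ) (T : ℕ) (e x : Fin n → Bool) :
    up τ T e (ext true true x) = T + 2 + τ (tr e x) := by simp [up]

lemma up_tf (τ : (Fin n → Bool) → ℕ) (T : ℕ) (e x : Fin n → Bool) :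
    up τ T e (ext true false x) = τ x + 1 := by simp [up]

lemma up_ft (τ : (Fin n → Bool) → ℕ) (T : ℕ) (e x : Fin n → Bool) :
    up τ T e (ext false true x) = τ x + 1 := by simp [up]

/-- the path of the next cube -/
def nx (T : ℕ) (w : ℕ → Fin n → Bool) (k : ℕ) : Fin (n + 2) → Bool :=
  if k ≤ T then ext false false (w k)
  else if k = T + 1 then ext true false (w T)
  else ext true true (tr (tr (w 0) (w T)) (w (k - (T + 2))))

lemma Lay.next {τ : (Fin n → Bool) → ℕ} {T : ℕ} {w : ℕ → Fin n → Bool} (h : Lay n τ T w) :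
    Lay (n + 2) (up τ T (tr (w 0) (w T))) (2 * T + 2) (nx T w) := by
  set e := tr (w 0) (w T) with he
  have he0 : tr e (w 0) = w T := by
    rw [he, tr_comm (w 0), tr_comm _ (w 0), tr_comm (w T) (w 0), tr_tr]
  have heT : tr e (w T) = w 0 := by
    rw [he, tr_comm _ (w T), tr_comm (w 0), tr_tr]
  have key : ∀ (c a : Bool) (x : Fin n → Bool), up τ T e (ext false a x) <
      up τ T e (ext true a x) ∧ up τ T e (ext c false x) < up τ T e (ext c true x) := by
    intro c a x
    have h1 := h.le x
    constructor
    · cases a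
      · rw [up_ff, up_tf]; omega
      · rw [up_ft, up_tt]; omega
    · cases c
      · rw [up_ff, up_ft]; omega
      · rw [up_tf, up_tt]; omega
  refine ⟨?_, ?_, ?_, ?_, ?_, ?_⟩
  · intro x i
    rw [← ext_tl x]
    generalize x 0 = c
    generalize x 1 = a
    generalize tl x = z
    rcases dirs i with rfl | rfl | ⟨j, rfl⟩
    · rw [flip_ext_zero]
      have := (key c a z).1
      cases c
      · exact this.ne'
      · exact this.ne
    · rw [flip_ext_one]
      have := (key c a z).2
      cases a
      · exact this.ne'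
      · exact this.ne
    · rw [flip_ext_ss]
      cases c <;> cases a
      · rw [up_ff, up_ff]; exact h.adj _ _
      · rw [up_ft, up_ft]
        have := h.adj z j
        omega
      · rw [up_tf, up_tf]
        have := h.adj z j
        omega
      · rw [up_tt, up_tt, ← flip_tr]
        have := h.adj (tr e z) j
        omega
  · intro U x hU
    by_cases h0 : (0 : Fin (n + 2)) ∈ U
    · refine ⟨0, h0, false, fun y _ => ?_⟩
      rw [← ext_tl y]
      generalize y 0 = c
      generalize y 1 = a
      generalize tl y = z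
      rw [flip_ext_zero]
      have := (key c a z).1
      cases c
      · simpa using this
      · simpa using this.le
    by_cases h1 : (1 : Fin (n + 2)) ∈ U
    · refine ⟨1, h1, false, fun y _ => ?_⟩
      rw [← ext_tl y]
      generalize y 0 = c
      generalize y 1 = a
      generalize tl y = z
      rw [flip_ext_one]
      have := (key c a z).2
      cases a
      · simpa using this
      · simpa using this.le
    -- all directions are old
    set V : Finset (Fin n) := univ.filter fun i => i.succ.succ ∈ U with hV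
    have hVne : V.Nonempty := by
      obtain ⟨i, hi⟩ := hU
      rcases dirs i with rfl | rfl | ⟨j, rfl⟩
      · exact absurd hi h0
      · exact absurd hi h1
      · exact ⟨j, by rw [hV]; simpa using hi⟩
    have hyx : ∀ y : Fin (n + 2) → Bool, (∀ j, j ∉ U → y j = x j) →
        y 0 = x 0 ∧ y 1 = x 1 ∧ ∀ j, j ∉ V → tl y j = tl x j := by
      intro y hy
      refine ⟨hy 0 h0, hy 1 h1, fun j hj => hy _ fun h => hj ?_⟩
      rw [hV]; simpa using h
    by_cases hc : x 0 = true ∧ x 1 = true
    · obtain ⟨i, hi, b, hb⟩ := h.comb V (tr e (tl x)) hVne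
      refine ⟨i.succ.succ, by rw [hV] at hi; simpa using hi, xor b (e i), fun y hy => ?_⟩
      obtain ⟨q0, q1, q2⟩ := hyx y hy
      rw [← ext_tl y, q0, q1, hc.1, hc.2, flip_ext_ss, up_tt, up_tt, ← flip_tr]
      have := hb (tr e (tl y)) (fun j hj => by simp only [tr]; rw [q2 j hj])
      rw [ext_ss]
      constructor
      · intro h3
        have h4 := this.1 (by omega)
        simp only [tr] at h4
        rw [← h4]
        cases tl y i <;> cases e i <;> rfl
      · intro h3
        have h4 := this.2 (by simp only [tr]; rw [h3]; cases b <;> cases e i <;> rfl)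
        omega
    · obtain ⟨i, hi, b, hb⟩ := h.comb V (tl x) hVne
      refine ⟨i.succ.succ, by rw [hV] at hi; simpa using hi, b, fun y hy => ?_⟩
      obtain ⟨q0, q1, q2⟩ := hyx y hy
      rw [← ext_tl y, q0, q1, flip_ext_ss, ext_ss]
      have := hb (tl y) q2
      rcases hx0 : x 0 with _ | _ <;> rcases hx1 : x 1 with _ | _
      · rw [up_ff, up_ff]; exact this
      · rw [up_ft, up_ft, ← this]; omega
      · rw [up_tf, up_tf, ← this]; omega
      · exact absurd ⟨hx0, hx1⟩ hc
  · intro x
    rw [← ext_tl x]
    generalize x 0 = c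
    generalize x 1 = a
    generalize tl x = z
    have h1 := h.le z
    have h2 := h.le (tr e z)
    cases c <;> cases a
    · rw [up_ff]; omega
    · rw [up_ft]; omega
    · rw [up_tf]; omega
    · rw [up_tt]; omega
  · intro k hk
    rcases lt_trichotomy k T with h1 | h1 | h1
    · obtain ⟨i, hi⟩ := h.path k h1
      refine ⟨i.succ.succ, ?_⟩
      rw [nx, nx, if_pos (by omega), if_pos (by omega), flip_ext_ss, hi]
    · subst h1
      refine ⟨0, ?_⟩
      rw [nx, nx, if_neg (by omega), if_pos rfl, if_pos le_rfl, flip_ext_zero]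
      rfl
    · rcases Nat.lt_or_ge (T + 1) k with h2 | h2
      · obtain ⟨i, hi⟩ := h.path (k - (T + 2)) (by omega)
        refine ⟨i.succ.succ, ?_⟩
        rw [nx, nx, if_neg (by omega), if_neg (by omega), if_neg (by omega), if_neg (by omega),
          flip_ext_ss, flip_tr, ← hi]
        congr 3
        omega
      · have h3 : k = T + 1 := by omega
        subst h3
        refine ⟨1, ?_⟩
        rw [nx, nx, if_neg (by omega), if_neg (by omega), if_neg (by omega), if_pos rfl,
          flip_ext_one, ← he]
        have : T + 1 + 1 - (T + 2) = 0 := by omega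
        rw [this, he0]
        rfl
  · intro k hk
    rw [nx]
    split_ifs with h1 h2
    · rw [up_ff]; exact h.lay k h1
    · rw [up_tf, h.lay T le_rfl, h2]
    · rw [← he, up_tt, tr_tr, h.lay _ (by omega)]
      omega
  · intro k hk i
    rw [nx]
    split_ifs with h1 h2
    · have h3 := h.lay k h1
      rcases dirs i with rfl | rfl | ⟨j, rfl⟩
      · rw [flip_ext_zero, Bool.not_false, up_tf]; omega
      · rw [flip_ext_one, Bool.not_false, up_ft]; omega
      · rw [flip_ext_ss, up_ff]; exact h.imp k h1 j
    · have h3 := h.lay T le_rfl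
      rcases dirs i with rfl | rfl | ⟨j, rfl⟩
      · rw [flip_ext_zero, Bool.not_true, up_ff]; omega
      · rw [flip_ext_one, Bool.not_false, up_tt, heT]
        have := h.lay 0 (by omega)
        omega
      · rw [flip_ext_ss, up_tf]
        have := h.le (H454R3.flip (w T) j)
        omega
    · rw [← he]
      have h3 := h.lay (k - (T + 2)) (by omega)
      rcases dirs i with rfl | rfl | ⟨j, rfl⟩
      · rw [flip_ext_zero, Bool.not_true, up_ft]
        have := h.le (tr e (w (k - (T + 2))))
        omega
      · rw [flip_ext_one, Bool.not_true, up_tf]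
        have := h.le (tr e (w (k - (T + 2))))
        omega
      · rw [flip_ext_ss, up_tt, ← flip_tr, tr_tr]
        have := h.imp (k - (T + 2)) (by omega) j
        omega

/-- **Layered cubes exist.** -/
theorem exists_lay : ∀ n : ℕ, ∃ (τ : (Fin n → Bool) → ℕ) (T : ℕ) (w : ℕ → Fin n → Bool),
    Lay n τ T w ∧ (2 : ℝ) ^ ((n : ℝ) / 2 + 1) ≤ T + 2
  | 0 => by
    refine ⟨fun _ => 0, 0, fun _ i => i.elim0, ⟨fun _ i => i.elim0, ?_, fun _ => le_rfl, ?_, ?_, ?_⟩,
      ?_⟩
    · intro U x hU
      obtain ⟨i, _⟩ := hU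
      exact i.elim0
    · intro k hk
      omega
    · intro k hk
      omega
    · intro k hk i
      exact i.elim0
    · norm_num
  | 1 => by
    have hfl : ∀ (x : Fin 1 → Bool) (i : Fin 1), H454R3.flip x i 0 = !x 0 := by
      intro x i
      rw [Subsingleton.elim i 0, flip_self]
    refine ⟨fun x => (x 0).toNat, 1, fun k _ => decide (k = 1), ⟨?_, ?_, ?_, ?_, ?_, ?_⟩, ?_⟩
    · intro x i
      simp only [hfl]
      cases x 0 <;> simp
    · intro U x hU
      obtain ⟨i, hi⟩ := hU
      refine ⟨i, hi, false, fun y _ => ?_⟩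
      rw [Subsingleton.elim i 0]
      simp only [flip_self]
      cases y 0 <;> simp
    · intro x
      show (x 0).toNat ≤ 1
      cases x 0 <;> simp
    · intro k hk
      have : k = 0 := by omega
      subst this
      refine ⟨0, ?_⟩
      funext i
      rw [Subsingleton.elim i 0, flip_self]
      rfl
    · intro k hk
      interval_cases k <;> rfl
    · intro k hk i
      simp only [hfl]
      interval_cases k <;> simp
    · have h2 : (2 : ℝ) ^ (((1 : ℕ) : ℝ) / 2 + 1) = 2 * √2 := by
        rw [Real.rpow_add (by norm_num), Real.rpow_one, Real.sqrt_eq_rpow]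
        push_cast
        ring
      rw [h2]
      have h3 : √2 ≤ 3 / 2 := by
        rw [Real.sqrt_le_left (by norm_num)]
        norm_num
      push_cast
      linarith
  | n + 2 => by
    obtain ⟨τ, T, w, h, hT⟩ := exists_lay n
    refine ⟨_, _, _, h.next, ?_⟩
    have : (2 : ℝ) ^ (((n + 2 : ℕ) : ℝ) / 2 + 1) = 2 * (2 : ℝ) ^ ((n : ℝ) / 2 + 1) := by
      have h1 : ((n + 2 : ℕ) : ℝ) / 2 + 1 = 1 + ((n : ℝ) / 2 + 1) := by
        push_cast
        ring
      rw [h1, Real.rpow_add (by norm_num) 1, Real.rpow_one]
    rw [this]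
    push_cast
    linarith

end Pool.Agent.TH821.VD
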